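import Mathlib
import Pool.Agent.MP_f18a41_lc.DefsW
import Pool.Agent.MP_f18a41_lc.Walk

namespace Pool.Agent.Results.MP_f18a41_lc.ChainedFrames

open Pool.Agent.MP_f18a41_lc

/-- Every modal formula in the provability logic of `S^1_2` (`full = false`) or of `S_2`
(`full = true`) holds, under every valuation, at every point `w` of a finite transitive
irreflexive frame that is chained at `w`. -/
theorem result (full : Bool) (X : MF) (hX : PL full X) (W : Type) [Finite W] (R : W → W → Prop)
    (tr : ∀ x y z, R x y → R y z → R x z) (ir : ∀ x, ¬ R x x) (w : W) (h : Chained R w)
    (V : ℕ → W → Prop) : Force R V w X :=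
  Walk.chained_valid hX W R tr ir w h V

/-- Check of the definitions: `prov full φ` is true in the natural numbers exactly when the theory
proves `φ`. -/
theorem prov_adequate (full : Bool) (φ : Fm) (v : ℕ → ℕ) :
    Prv full φ ↔ (prov full φ).holds v := (all_parts full).1 φ v

/-- Check of the definitions (known, Buss): GL is contained in the provability logic. -/
theorem gl_sound (full : Bool) (X : MF) (h : GLog X) : PL full X := (all_parts full).2.1 X h

/-- Closed frames are chained at every point. -/
theorem closed_chained (W : Type) [Finite W] (R : W → W → Prop)
    (tr : ∀ x y z, R x y → R y z → R x z) (ir : ∀ x, ¬ R x x) (cl : Closed R) (w : W) :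
    Chained R w := Walk.chained_of_closed tr ir cl w

/-- The earlier upper bound follows: the provability logic is contained in GL + Cl. -/
theorem pl_glc (full : Bool) (X : MF) (hX : PL full X) : GLC X :=
  Canon.complete X fun W _ R tr ir cl V w =>
    result full X hX W R tr ir w (closed_chained W R tr ir cl w) V

/-- The containment is strict: this instance of Cl is not in the provability logic. -/
theorem cl_instance (full : Bool) : GLC Walk.cl2 ∧ ¬ PL full Walk.cl2 :=
  ⟨Walk.glc_cl2, Walk.cl2_not_PL full⟩

/-- A second formula outside the provability logic; its frame needs two `Near` steps. -/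
theorem zig_not_PL (full : Bool) : ¬ PL full Walk.zig := Walk.zig_not_PL full

end Pool.Agent.Results.MP_f18a41_lc.ChainedFrames
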