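import Mathlib
import Pool.Agent.PLO.DefsK
import Pool.Agent.PLO.Wk

namespace Pool.Agent.Results.MP_f18a41_lc.OracleBarrier

open Pool.Agent.PLO

/-- Relative to a suitable oracle `A` the provability logic of `S^1_2` (`full = false`) or `S_2`
(`full = true`) is not GL, although the theory `T^A` keeps the properties that the known upper
bounds use. -/
theorem result (full : Bool) : ∃ A : Set ℕ,
    -- soundness
    (∀ φ, Prv full A φ → ∀ v, φ.holds A v) ∧
    -- provable bounded existence statements have term bounds
    (∀ (θ : Fm) (y : ℕ), Cls true true θ → Prv full A (.ex y θ) →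
      ∃ t : Tm, ¬ t.occ y ∧ ∀ v, (Fm.bex y t θ).holds A v) ∧
    -- the provability predicate is adequate
    (∀ (φ : Fm) v, (prov full φ).holds A v ↔ Prv full A φ) ∧
    -- provable completeness for the class `Σ^b_1(α)`
    (∀ θ, Cls false true θ → (∀ x, θ.free x → x = 0) →
      Prv full A (.imp (.eq (.var 0) (.var 16)) (.imp θ (boxDot full θ)))) ∧
    -- small reflection on definable cuts
    (∀ I φ : Fm, (∀ x, I.free x → x = 0) → (∀ x, ¬ φ.free x) →
      Prv full A (boxDot full (.imp (prfLe full φ) (.imp (cutF I) (rel I φ))))) ∧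
    -- the lower bound GL
    (∀ X, GLog X → PL full A X) ∧
    -- the upper bound by frames that omit `Y`
    (∀ X, PL full A X → ∀ (W : Type) [Finite W] (R : W → W → Prop),
      (∀ x y z, R x y → R y z → R x z) → (∀ x, ¬ R x x) → OmitsY R → ∀ V w, Force R V w X) ∧
    -- the provability logic is not GL
    PL full A Phi ∧ ¬ GLog Phi := by
  obtain ⟨A, h1, h2, h3⟩ := final full
  have K : Walk.Kit full A := ⟨h1, fun ψ h v => (holds_nM full A ψ v).1 (h2 ψ h v) |>
    (ψ.ev_congr fun x _ => STDp.cast_eq full A (v x)).1⟩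
  exact ⟨A, h2, h3, adequate A, fun _ => sig_compl A, small_refl h1,
    fun X h f hf => (gls' full X h f hf).prv A,
    fun X h W _ R tr ir hY V w => Walk.chained_valid K h W R tr ir w
      (Walk.chained_of_closed tr ir (upper.frame W R tr ir hY) w) V, pl_Phi h1, not_gl_Phi⟩

/-- The stronger upper bound by chained frames (hand-in ChainedFrames) also holds for a theory
`T^A` whose provability logic contains `Phi`. -/
theorem chained (full : Bool) : ∃ A : Set ℕ, PL full A Phi ∧ ∀ X, PL full A X →
    ∀ (W : Type) [Finite W] (R : W → W → Prop), (∀ x y z, R x y → R y z → R x z) →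
      (∀ x, ¬ R x x) → ∀ w, Chained R w → ∀ V, Force R V w X := by
  obtain ⟨A, h1, h2, -⟩ := final full
  have K : Walk.Kit full A := ⟨h1, fun ψ h v => (holds_nM full A ψ v).1 (h2 ψ h v) |>
    (ψ.ev_congr fun x _ => STDp.cast_eq full A (v x)).1⟩
  exact ⟨A, pl_Phi h1, fun X h W _ R tr ir w hw V => Walk.chained_valid K h W R tr ir w hw V⟩

end Pool.Agent.Results.MP_f18a41_lc.OracleBarrier
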